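import Pool.Agent.K3h16.SF.Stm

/-!
# SF brick ADD: the power of a sum vanishes (helper52, for helper16)
-/

set_option autoImplicit false
set_option linter.unusedSectionVars false

open CategoryTheory Limits MonoidalCategory
open Pool.Agent.K3h16.SF Pool.Agent.Y112.KD Pool.Agent.R905

namespace Pool.Agent.K3h52.SF

universe v u

section

variable {C : Type u} [Category.{v} C] [MonoidalCategory C] [SymmetricCategory C]
  [Preadditive C] [Linear ℚ C] [MonoidalPreadditive C] [MonoidalLinear ℚ C]

/-- exchange of neighbouring factors -/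
lemma exists_swap {X : C} (N : ℕ) : ∀ i : Fin N, ∃ s : tp X (N + 1) ⟶ tp X (N + 1),
    IsSwap X (N + 1) s ∧ ∀ p : Fin (N + 1) → (X ⟶ X),
      Dn (N + 1) (p ∘ Equiv.swap i.castSucc i.succ) ≫ s = s ≫ Dn (N + 1) p := by
  induction N with
  | zero => exact fun i => i.elim0
  | succ N ih =>
    intro i
    refine Fin.cases ?_ (fun j => ?_) i
    · refine ⟨sw (tp X N) X, IsSwap.last N, fun p => ?_⟩
      have h0 : (p ∘ Equiv.swap (0 : Fin (N + 1)).castSucc (0 : Fin (N + 1)).succ) 0 =
          p 1 := by
        simp
      have h1 : (p ∘ Equiv.swap (0 : Fin (N + 1)).castSucc (0 : Fin (N + 1)).succ)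
          (Fin.succ 0) = p 0 := by
        simp
      have h2 : (fun i : Fin N => (p ∘ Equiv.swap (0 : Fin (N + 1)).castSucc
          (0 : Fin (N + 1)).succ) i.succ.succ) = fun i : Fin N => p i.succ.succ := by
        funext i
        have : Equiv.swap (0 : Fin (N + 1)).castSucc (0 : Fin (N + 1)).succ i.succ.succ =
            i.succ.succ := by
          refine Equiv.swap_apply_of_ne_of_ne ?_ ?_
          · exact Fin.succ_ne_zero _
          · intro h
            exact Fin.succ_ne_zero i (Fin.succ_injective _ h)
        simp only [Function.comp_apply, this]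
      rw [Dn_succ, Dn_succ, h0, h1, h2, Dn_succ, Dn_succ]
      exact sw_nat _ _ _
    · obtain ⟨s, hs, hp⟩ := ih j
      refine ⟨s ▷ X, IsSwap.lift _ _ hs, fun p => ?_⟩
      have h0 : (p ∘ Equiv.swap j.succ.castSucc j.succ.succ) 0 = p 0 := by
        have : Equiv.swap j.succ.castSucc j.succ.succ 0 = 0 := by
          refine Equiv.swap_apply_of_ne_of_ne ?_ (Fin.succ_ne_zero _).symm
          rw [← Fin.succ_castSucc]
          exact (Fin.succ_ne_zero _).symm
        simp only [Function.comp_apply, this]
      have h1 : (fun i : Fin (N + 1) => (p ∘ Equiv.swap j.succ.castSucc j.succ.succ) i.succ) =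
          (fun i : Fin (N + 1) => p i.succ) ∘ Equiv.swap j.castSucc j.succ := by
        funext i
        simp only [Function.comp_apply]
        rw [← Fin.succ_castSucc, (Fin.succ_injective _).map_swap]
      rw [Dn_succ, h0, h1, Dn_succ _ p, ← tensorHom_id, tensorHom_comp_tensorHom,
        tensorHom_comp_tensorHom, hp, Category.comp_id, Category.id_comp]

lemma van_swap {η : ℚ} (hη : η * η = 1) {X : C} {N : ℕ} (i : Fin N)
    (p : Fin (N + 1) → (X ⟶ X)) (h : Dn (N + 1) p ≫ asym η X (N + 1) = 0) :
    Dn (N + 1) (p ∘ Equiv.swap i.castSucc i.succ) ≫ asym η X (N + 1) = 0 := by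
  obtain ⟨s, hs, hp⟩ := exists_swap (X := X) N i
  have h1 := (swap_asym hη X hs).1
  have h2 : asym η X (N + 1) = η • (s ≫ asym η X (N + 1)) := by
    rw [h1, smul_smul, hη, one_smul]
  rw [h2, Linear.comp_smul, ← Category.assoc, hp, Category.assoc, h, comp_zero, smul_zero]

lemma van_perm {η : ℚ} (hη : η * η = 1) {X : C} {N : ℕ} (σ : Equiv.Perm (Fin N)) :
    ∀ (p : Fin N → (X ⟶ X)), Dn N p ≫ asym η X N = 0 →
      Dn N (p ∘ σ) ≫ asym η X N = 0 := by
  rcases N with - | N
  · intro p h
    rw [Subsingleton.elim (p ∘ σ) p]
    exact h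
  · have hσ : σ ∈ Submonoid.closure (Set.range fun i : Fin N =>
        Equiv.swap i.castSucc i.succ) := by
      rw [Equiv.Perm.mclosure_swap_castSucc_succ]
      trivial
    induction hσ using Submonoid.closure_induction with
    | mem x hx =>
      obtain ⟨i, rfl⟩ := hx
      exact fun p h => van_swap hη i p h
    | one => exact fun p h => h
    | mul x y _ _ ihx ihy =>
      intro p h
      exact ihy _ (ihx p h)

lemma van_sorted {η : ℚ} (hη : η * η = 1) {X : C} (f : X ⟶ X) (m : ℕ)
    (hf : tpm f m ≫ asym η X m = 0) (k : ℕ) : ∀ p : Fin (m + k) → (X ⟶ X),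
      (∀ i : Fin (m + k), k ≤ (i : ℕ) → p i = f) → Dn (m + k) p ≫ asym η X (m + k) = 0 := by
  induction k with
  | zero =>
    intro p hp
    have key : ∀ (n : ℕ) (q : Fin n → (X ⟶ X)), (∀ i, q i = f) → Dn n q = tpm f n := by
      intro n
      induction n with
      | zero => exact fun _ _ => rfl
      | succ n ih =>
        intro q hq
        rw [Dn_succ, hq 0, ih _ fun i => hq i.succ]
        rfl
    have := key m p fun i => hp i (Nat.zero_le _)
    change Dn m p ≫ asym η X m = 0
    rw [this, hf]
  | succ k ih =>
    intro p hp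
    have h1 := ih (fun i => p i.succ) fun i hi => hp i.succ (by simpa using hi)
    have h2 := (absorb hη X (m + k)).1
    change Dn (m + k + 1) p ≫ asym η X (m + k + 1) = 0
    rw [← h2, Dn_succ, ← tensorHom_id, tensorHom_comp_tensorHom_assoc, h1,
      MonoidalPreadditive.zero_tensor, zero_comp]

/-- words with many letters `f` -/
lemma van_word {η : ℚ} (hη : η * η = 1) {X : C} (f g : X ⟶ X) (m k : ℕ)
    (hf : tpm f m ≫ asym η X m = 0) (w : Fin (m + k) → Bool)
    (hw : m ≤ Fintype.card {i // w i = true}) :
    Dn (m + k) (fun i => if w i then f else g) ≫ asym η X (m + k) = 0 := by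
  have hmono := Tuple.monotone_sort w
  set σ := Tuple.sort w with hσ
  have hcard : Fintype.card {i // (w ∘ σ) i = true} = Fintype.card {i // w i = true} :=
    Fintype.card_congr (Equiv.subtypeEquiv σ fun _ => Iff.rfl)
  have h1 : Dn (m + k) (fun i => if (w ∘ σ) i then f else g) ≫ asym η X (m + k) = 0 := by
    refine van_sorted hη f m hf k _ fun i hi => ?_
    by_contra hne
    have hfalse : (w ∘ σ) i = false := by
      by_contra h
      have h' : (w ∘ σ) i = true := by simpa using h
      rw [h'] at hne
      exact hne rfl
    have h2 := (Tuple.lt_card_le_iff_apply_le_of_monotone (j := i) (a := false) hmono).2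
      (by rw [hfalse])
    have h3 : Fintype.card {i // (w ∘ σ) i ≤ false} =
        Fintype.card {i // ¬ ((w ∘ σ) i = true)} :=
      Fintype.card_congr (Equiv.subtypeEquivRight fun x => by
        cases (w ∘ σ) x <;> simp)
    rw [← Fintype.card_subtype, h3, Fintype.card_subtype_compl, Fintype.card_fin, hcard] at h2
    omega
  have h2 := van_perm hη σ⁻¹ _ h1
  have h3 : (fun i => if (w ∘ σ) i then f else g) ∘ (σ⁻¹ : Equiv.Perm _) =
      fun i => if w i then f else g := by
    funext i
    simp
  rwa [h3] at h2

lemma tpm_add_mem {X : C} (f g : X ⟶ X) (N : ℕ) : tpm (f + g) N ∈ Submodule.span ℚ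
    (Set.range fun w : Fin N → Bool => Dn N (fun i => if w i then f else g)) := by
  induction N with
  | zero => exact Submodule.subset_span ⟨fun _ => true, rfl⟩
  | succ N ih =>
    have e : tpm (f + g) (N + 1) = (tpm (f + g) N ⊗ₘ f) + (tpm (f + g) N ⊗ₘ g) := by
      rw [← MonoidalPreadditive.tensor_add]
      rfl
    rw [e]
    have key : ∀ (b : Bool) (y : tp X N ⟶ tp X N), y ∈ Submodule.span ℚ
        (Set.range fun w : Fin N → Bool => Dn N (fun i => if w i then f else g)) →
        (y ⊗ₘ (if b then f else g)) ∈ Submodule.span ℚ (Set.range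
          fun w : Fin (N + 1) → Bool => Dn (N + 1) (fun i => if w i then f else g)) := by
      intro b y hy
      induction hy using Submodule.span_induction with
      | mem x hx =>
        obtain ⟨w, rfl⟩ := hx
        refine Submodule.subset_span ⟨Fin.cons b w, ?_⟩
        simp only [Dn_succ, Fin.cons_succ, Fin.cons_zero]
      | zero =>
        rw [MonoidalPreadditive.zero_tensor]
        exact Submodule.zero_mem _
      | add x y _ _ hx hy =>
        rw [MonoidalPreadditive.add_tensor]
        exact Submodule.add_mem _ hx hy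
      | smul c x _ hx =>
        have : ((c • x) ⊗ₘ (if b then f else g)) = c • (x ⊗ₘ (if b then f else g)) := by
          rw [MonoidalCategory.tensorHom_def, MonoidalCategory.tensorHom_def, MonoidalLinear.smul_whiskerRight,
            Linear.smul_comp]
        rw [this]
        exact Submodule.smul_mem _ _ hx
    exact Submodule.add_mem _ (key true _ ih) (key false _ ih)

end

/-- ADD: the power of a sum vanishes. -/
theorem t_ADD : S_ADD.{v, u} := by
  intro C _ _ _ _ _ _ _ η hη M f g m n hf hg Z h hh
  have hf' : tpm f m ≫ asym η M m = 0 := hf _ _ fun s hs => (swap_asym hη M hs).1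
  have hg' : tpm g n ≫ asym η M n = 0 := hg _ _ fun s hs => (swap_asym hη M hs).1
  have hw : ∀ w : Fin (m + n) → Bool,
      Dn (m + n) (fun i => if w i then f else g) ≫ asym η M (m + n) = 0 := by
    intro w
    by_cases hc : m ≤ Fintype.card {i // w i = true}
    · exact van_word hη f g m n hf' w hc
    · have hc2 : n ≤ Fintype.card {i // (!w i) = true} := by
        have h3 : Fintype.card {i // (!w i) = true} =
            Fintype.card {i // ¬ (w i = true)} :=
          Fintype.card_congr (Equiv.subtypeEquivRight fun x => by
            cases w x <;> simp)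
        rw [h3, Fintype.card_subtype_compl, Fintype.card_fin]
        omega
      have key : ∀ (N : ℕ) (hN : N = n + m) (w' : Fin N → Bool),
          n ≤ Fintype.card {i // (!w' i) = true} →
          Dn N (fun i => if w' i then f else g) ≫ asym η M N = 0 := by
        intro N hN w' hw'
        subst hN
        have h4 := van_word hη g f n m hg' (fun i => !w' i) hw'
        have h5 : (fun i => if (!w' i) = true then g else f) =
            fun i => if w' i = true then f else g := by
          funext i
          cases w' i <;> simp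
        rwa [h5] at h4
      exact key (m + n) (Nat.add_comm m n) w hc2
  have hz : tpm (f + g) (m + n) ≫ asym η M (m + n) = 0 := by
    have hmem := tpm_add_mem f g (m + n)
    generalize tpm (f + g) (m + n) = y at hmem
    induction hmem using Submodule.span_induction with
    | mem x hx =>
      obtain ⟨w, rfl⟩ := hx
      exact hw w
    | zero => exact zero_comp
    | add x y _ _ hx hy => rw [Preadditive.add_comp, hx, hy, add_zero]
    | smul c x _ hx => rw [Linear.smul_comp, hx, smul_zero]
  rw [← asym_comp hη h hh, ← Category.assoc, hz, zero_comp]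

end Pool.Agent.K3h52.SF
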